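import Pool.Agent.Helper57.QZ.Stmts2
import Pool.Agent.Helper24.QZ.FIN

/-! # Row FIN2 -/

set_option autoImplicit false

namespace Pool.Agent.Helper57.QZ

open MeasureTheory Set Filter Topology

theorem fin2_of (h : ST_TS2) : ST_FIN2 := by
  intro ε hε κ hκ δ hδ
  set d : ℝ := min δ 1 with hd
  have hd0 : 0 < d := lt_min hδ one_pos
  have hd1 : d ≤ 1 := min_le_right _ _
  have hdδ : d ≤ δ := min_le_left _ _
  obtain ⟨N₀, T₀, hN₀, hT₀, hT⟩ := h ε hε (d / 8) ⟨by positivity, by linarith⟩ κ hκ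
  refine ⟨N₀ + 1, T₀, by linarith, by linarith, fun T hTT N hNN hNT σ hσ θ => ?_⟩
  obtain ⟨A, B, hA, hB, a1, a2, b1, b2, hc⟩ := hT T hTT N (by linarith) hNT σ hσ
  obtain ⟨c1, c2⟩ := hc θ
  have k1 := fin_top_bounds N T _ _ (fun t => ‖riemannZeta (pt σ t)‖) a1 a2
  have k2 := fin_top_bounds N T _ _ (fun t => ‖deriv riemannZeta (pt σ t)‖) b1 b2
  have k3 := fin_top_bounds N T _ _ (fun t => (Complex.exp (-((θ : ℂ) * Complex.I)) *
        (deriv riemannZeta (pt σ t) / riemannZeta (pt σ t))).re) c1 c2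
  exact fin_arith δ d (d / 8) A B _ _ _ hd0 hdδ hd1 rfl hA hB k1.1 k1.2 k2.1 k2.2 k3.1 k3.2

end Pool.Agent.Helper57.QZ
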